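import Mathlib
import Pool.Agent.R208.LevelInj

/-!
# A minimal graph of exponential growth over a domain containing a half-plane

The solution is given by the Weierstrass representation `Z = (A + conj B) / 2`, `u = Im ζ`, with
`A' = a`, `B' = 1 / a`, `a(ζ) = (ζ + 3 i)³ / (ζ² (ζ + i))`, on the upper half-plane.
-/

set_option autoImplicit false

open Set Filter Complex
open scoped Topology Real

namespace Pool.Agent.Results.MP_dd07a5_an.ExponentialGrowth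

/-- `∂u/∂x` -/
noncomputable def ux (u : ℂ → ℝ) (z : ℂ) : ℝ := fderiv ℝ u z 1

/-- `∂u/∂y` -/
noncomputable def uy (u : ℂ → ℝ) (z : ℂ) : ℝ := fderiv ℝ u z Complex.I

/-- `√(1 + |∇u|²)` -/
noncomputable def W (u : ℂ → ℝ) (z : ℂ) : ℝ := √(1 + (ux u z ^ 2 + uy u z ^ 2))

/-- `u` is a solution of the problem `(∗)` in `D`: `u ∈ C²(D) ∩ C(closure D)` satisfies the
minimal surface equation in divergence form in `D`, `u > 0` in `D` and `u = 0` on the boundary. -/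
structure IsSolution (D : Set ℂ) (u : ℂ → ℝ) : Prop where
  smooth : ContDiffOn ℝ 2 u D
  cont : ContinuousOn u (closure D)
  mse : ∀ z ∈ D, fderiv ℝ (fun w => ux u w / W u w) z 1
    + fderiv ℝ (fun w => uy u w / W u w) z Complex.I = 0
  pos : ∀ z ∈ D, 0 < u z
  bdry : ∀ z ∈ frontier D, u z = 0

section aux

/-! ### The representation -/

/-- the Gauss map -/
noncomputable def a (ζ : ℂ) : ℂ := (ζ + 3 * I) ^ 3 / (ζ ^ 2 * (ζ + I))

noncomputable def A (ζ : ℂ) : ℂ := ζ + 27 / ζ + 8 * I * log (ζ + I)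

noncomputable def B (ζ : ℂ) : ℂ :=
  ζ - 8 * I * log (ζ + 3 * I) + 21 / (ζ + 3 * I) - 9 * I / (ζ + 3 * I) ^ 2

noncomputable def Z (ζ : ℂ) : ℂ := (1 / 2 : ℝ) • (A ζ + (starRingEnd ℂ) (B ζ))

lemma mem_slit {ζ : ℂ} (h : 0 ≤ ζ.im) {c : ℝ} (hc : 0 < c) : ζ + c * I ∈ slitPlane := by
  right
  simp
  positivity

lemma ne_zero_of_im {ζ : ℂ} (h : 0 ≤ ζ.im) {c : ℝ} (hc : 0 < c) : ζ + c * I ≠ 0 :=
  slitPlane_ne_zero (mem_slit h hc)

lemma mem_slit1 {ζ : ℂ} (h : 0 ≤ ζ.im) : ζ + I ∈ slitPlane := by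
  simpa using mem_slit h one_pos

lemma mem_slit3 {ζ : ℂ} (h : 0 ≤ ζ.im) : ζ + 3 * I ∈ slitPlane := by
  simpa using mem_slit h (c := 3) (by norm_num)

lemma ne1 {ζ : ℂ} (h : 0 ≤ ζ.im) : ζ + I ≠ 0 := slitPlane_ne_zero (mem_slit1 h)
lemma ne3 {ζ : ℂ} (h : 0 ≤ ζ.im) : ζ + 3 * I ≠ 0 := slitPlane_ne_zero (mem_slit3 h)

lemma a_ne {ζ : ℂ} (h : 0 ≤ ζ.im) (h0 : ζ ≠ 0) : a ζ ≠ 0 :=
  div_ne_zero (pow_ne_zero _ (ne3 h)) (mul_ne_zero (pow_ne_zero _ h0) (ne1 h))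

lemma hasStrictDerivAt_A {ζ : ℂ} (h : 0 ≤ ζ.im) (h0 : ζ ≠ 0) : HasStrictDerivAt A (a ζ) ζ := by
  have h1 := ne1 h
  have e1 : HasStrictDerivAt (fun ζ : ℂ => 27 / ζ) (27 * (-(ζ ^ 2)⁻¹)) ζ :=
    (hasStrictDerivAt_inv h0).const_mul 27
  have e2 : HasStrictDerivAt (fun ζ : ℂ => log (ζ + I)) (1 / (ζ + I)) ζ :=
    ((hasStrictDerivAt_id ζ).add_const I).clog (mem_slit1 h)
  have e3 := ((hasStrictDerivAt_id ζ).add e1).add (e2.const_mul (8 * I))
  refine e3.congr_deriv ?_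
  unfold a
  field_simp
  linear_combination (-27 * ζ - 27 * I) * I_sq

lemma hasStrictDerivAt_B {ζ : ℂ} (h : 0 ≤ ζ.im) :
    HasStrictDerivAt B ((a ζ)⁻¹) ζ := by
  have h1 := ne1 h
  have h3 := ne3 h
  have e0 : HasStrictDerivAt (fun ζ : ℂ => ζ + 3 * I) 1 ζ :=
    (hasStrictDerivAt_id ζ).add_const (3 * I)
  have e2 : HasStrictDerivAt (fun ζ : ℂ => log (ζ + 3 * I)) (1 / (ζ + 3 * I)) ζ :=
    e0.clog (mem_slit3 h)
  have e3 : HasStrictDerivAt (fun ζ : ℂ => 21 / (ζ + 3 * I)) (-21 / (ζ + 3 * I) ^ 2) ζ := by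
    have := (hasStrictDerivAt_const ζ (21 : ℂ)).div e0 h3
    refine this.congr_deriv ?_
    simp
  have e4 : HasStrictDerivAt (fun ζ : ℂ => 9 * I / (ζ + 3 * I) ^ 2)
      (-18 * I / (ζ + 3 * I) ^ 3) ζ := by
    have := (hasStrictDerivAt_const ζ (9 * I)).div (e0.pow 2) (pow_ne_zero 2 h3)
    refine this.congr_deriv ?_
    norm_num
    field_simp
    ring
  have e5 := (((hasStrictDerivAt_id ζ).sub (e2.const_mul (8 * I))).add e3).sub e4
  refine e5.congr_deriv ?_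
  unfold a
  rw [inv_div]
  generalize ht : ζ + 3 * I = t at *
  have hζ : ζ = t - 3 * I := by rw [← ht]; ring
  rw [hζ]
  field_simp
  linear_combination (-21 * t + 18 * I) * I_sq

/-! ### Positivity -/

lemma poly_pos {x y : ℝ} (hy : 0 < y) :
    0 < 27 * y / (x ^ 2 + y ^ 2) + 16 - 8 * (y + 1) / (x ^ 2 + (y + 1) ^ 2)
      - 45 * (y + 3) / (x ^ 2 + (y + 3) ^ 2) - 81 / (x ^ 2 + (y + 3) ^ 2)
      + 162 * (y + 3) ^ 2 / (x ^ 2 + (y + 3) ^ 2) ^ 2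
      + 162 * (y + 3) / (x ^ 2 + (y + 3) ^ 2) ^ 2
      - 216 * (y + 3) ^ 3 / (x ^ 2 + (y + 3) ^ 2) ^ 3 := by
  have e : 27 * y / (x ^ 2 + y ^ 2) + 16 - 8 * (y + 1) / (x ^ 2 + (y + 1) ^ 2)
      - 45 * (y + 3) / (x ^ 2 + (y + 3) ^ 2) - 81 / (x ^ 2 + (y + 3) ^ 2)
      + 162 * (y + 3) ^ 2 / (x ^ 2 + (y + 3) ^ 2) ^ 2
      + 162 * (y + 3) / (x ^ 2 + (y + 3) ^ 2) ^ 2
      - 216 * (y + 3) ^ 3 / (x ^ 2 + (y + 3) ^ 2) ^ 3
      = (19683 * y ^ 1 + 78732 * y ^ 2 + 137781 * y ^ 3 + 139968 * y ^ 4 + 91827 * y ^ 5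
        + 40716 * y ^ 6 + 12303 * y ^ 7 + 2456 * y ^ 8 + 294 * y ^ 9 + 16 * y ^ 10 +
        32805 * x ^ 2 * y ^ 1 + 87480 * x ^ 2 * y ^ 2 + 102114 * x ^ 2 * y ^ 3 + 68256 *
        x ^ 2 * y ^ 4 + 28593 * x ^ 2 * y ^ 5 + 7592 * x ^ 2 * y ^ 6 + 1176 * x ^ 2 * y
        ^ 7 + 80 * x ^ 2 * y ^ 8 + 5832 * x ^ 4 + 21951 * x ^ 4 * y ^ 1 + 29484 * x ^ 4
        * y ^ 2 + 20277 * x ^ 4 * y ^ 3 + 8040 * x ^ 4 * y ^ 4 + 1764 * x ^ 4 * y ^ 5 +
        160 * x ^ 4 * y ^ 6 + 1944 * x ^ 6 + 3987 * x ^ 6 * y ^ 1 + 3128 * x ^ 6 * y ^ 2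
        + 1176 * x ^ 6 * y ^ 3 + 160 * x ^ 6 * y ^ 4 + 224 * x ^ 8 + 294 * x ^ 8 * y ^ 1
        + 80 * x ^ 8 * y ^ 2 + 16 * x ^ 10)
        / ((x ^ 2 + y ^ 2) * (x ^ 2 + (y + 1) ^ 2) * (x ^ 2 + (y + 3) ^ 2) ^ 3) := by
    have h1 : x ^ 2 + y ^ 2 ≠ 0 := by positivity
    have h2 : x ^ 2 + (y + 1) ^ 2 ≠ 0 := by positivity
    have h3 : x ^ 2 + (y + 3) ^ 2 ≠ 0 := by positivity
    field_simp
    ring
  rw [e]
  positivity

lemma mul_a {ζ : ℂ} (h : 0 ≤ ζ.im) (h0 : ζ ≠ 0) :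
    ζ * a ζ = ζ + 8 * I - 27 / ζ + 8 / (ζ + I) := by
  have h1 := ne1 h
  unfold a
  field_simp
  linear_combination (19 * ζ + 27 * I) * I_sq

lemma mul_a_inv {ζ : ℂ} (h : 0 ≤ ζ.im) : ζ * (a ζ)⁻¹ = (ζ + 3 * I) - 11 * I
    - 45 / (ζ + 3 * I) + 81 * I / (ζ + 3 * I) ^ 2 + 54 / (ζ + 3 * I) ^ 3 := by
  have h3 := ne3 h
  unfold a
  rw [inv_div]
  generalize ht : ζ + 3 * I = t at *
  have hζ : ζ = t - 3 * I := by rw [← ht]; ring
  rw [hζ]
  field_simp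
  linear_combination (45 * t ^ 2 - 81 * I * t + 54 * (I ^ 2 - 1)) * I_sq

lemma inv_parts (w : ℂ) : (w⁻¹).re = w.re / (w.re ^ 2 + w.im ^ 2) ∧
    (w⁻¹).im = -w.im / (w.re ^ 2 + w.im ^ 2) := by
  rw [inv_re, inv_im, normSq_apply]
  simp only [← sq]
  exact ⟨trivial, trivial⟩

/-- `Im (ζ (a - 1 / a)) > 0` -/
lemma im_pos {ζ : ℂ} (h : 0 < ζ.im) : 0 < (ζ * a ζ - ζ * (a ζ)⁻¹).im := by
  have h0 : ζ ≠ 0 := by
    rintro rfl
    simp at h
  rw [mul_a h.le h0, mul_a_inv h.le]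
  have e1 := (inv_parts ζ).2
  have e2 := (inv_parts (ζ + I)).2
  obtain ⟨e3, e4⟩ := inv_parts (ζ + 3 * I)
  have r1 : (ζ + I).re = ζ.re := by simp
  have r2 : (ζ + I).im = ζ.im + 1 := by simp
  have r3 : (ζ + 3 * I).re = ζ.re := by simp
  have r4 : (ζ + 3 * I).im = ζ.im + 3 := by simp
  rw [r1, r2] at e2
  rw [r3, r4] at e3 e4
  have key := poly_pos (x := ζ.re) h
  have e5 : (ζ + 8 * I - 27 / ζ + 8 / (ζ + I) - (ζ + 3 * I - 11 * I - 45 / (ζ + 3 * I)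
      + 81 * I / (ζ + 3 * I) ^ 2 + 54 / (ζ + 3 * I) ^ 3)).im
      = 16 - 27 * (ζ⁻¹).im + 8 * ((ζ + I)⁻¹).im + 45 * ((ζ + 3 * I)⁻¹).im
        - 81 * (((ζ + 3 * I)⁻¹).re ^ 2 - ((ζ + 3 * I)⁻¹).im ^ 2)
        - 54 * (3 * ((ζ + 3 * I)⁻¹).re ^ 2 * ((ζ + 3 * I)⁻¹).im - ((ζ + 3 * I)⁻¹).im ^ 3) := by
    simp only [div_eq_mul_inv, ← inv_pow]
    generalize (ζ + 3 * I)⁻¹ = w
    generalize (ζ + I)⁻¹ = w1
    generalize ζ⁻¹ = w2
    simp [pow_succ]
    ring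
  rw [e5, e1, e2, e3, e4]
  refine key.trans_eq ?_
  generalize ζ.re = x at *
  generalize ζ.im = y at *
  have h1 : x ^ 2 + y ^ 2 ≠ 0 := by positivity
  have h2 : x ^ 2 + (y + 1) ^ 2 ≠ 0 := by positivity
  have h3 : x ^ 2 + (y + 3) ^ 2 ≠ 0 := by positivity
  have hT : x ^ 2 = (x ^ 2 + (y + 3) ^ 2) - (y + 3) ^ 2 := by ring
  rw [div_pow x, hT]
  generalize x ^ 2 + (y + 3) ^ 2 = T at *
  have hT2 : T - (y + 3) ^ 2 + (y + 3) ^ 2 = T := by ring
  rw [hT2]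
  generalize T - (y + 3) ^ 2 + y ^ 2 = V at *
  generalize T - (y + 3) ^ 2 + (y + 1) ^ 2 = U at *
  field_simp
  ring

lemma norm_sq_add {ζ : ℂ} (c : ℝ) : ‖ζ + c * I‖ ^ 2 = ζ.re ^ 2 + (ζ.im + c) ^ 2 := by
  rw [← normSq_eq_norm_sq, normSq_apply]
  simp
  ring

/-- `|a| > 1` -/
lemma one_lt_norm_a {ζ : ℂ} (h : 0 < ζ.im) : 1 < ‖a ζ‖ := by
  have h0 : ζ ≠ 0 := by
    rintro rfl
    simp at h
  have n0 : ‖ζ‖ ^ 2 = ζ.re ^ 2 + ζ.im ^ 2 := by
    have := norm_sq_add (ζ := ζ) 0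
    simpa using this
  have n1 : ‖ζ + I‖ ^ 2 = ζ.re ^ 2 + (ζ.im + 1) ^ 2 := by
    have := norm_sq_add (ζ := ζ) 1
    simpa using this
  have n3 : ‖ζ + 3 * I‖ ^ 2 = ζ.re ^ 2 + (ζ.im + 3) ^ 2 := by
    have := norm_sq_add (ζ := ζ) 3
    simpa using this
  have p0 : 0 < ‖ζ‖ := norm_pos_iff.2 h0
  have p1 : 0 < ‖ζ + I‖ := norm_pos_iff.2 (ne1 h.le)
  have l1 : ‖ζ‖ < ‖ζ + 3 * I‖ := by
    apply lt_of_pow_lt_pow_left₀ 2 (norm_nonneg _)
    rw [n0, n3]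
    nlinarith
  have l2 : ‖ζ + I‖ < ‖ζ + 3 * I‖ := by
    apply lt_of_pow_lt_pow_left₀ 2 (norm_nonneg _)
    rw [n1, n3]
    nlinarith
  unfold a
  rw [norm_div, norm_mul, norm_pow, norm_pow, one_lt_div (by positivity)]
  calc ‖ζ‖ ^ 2 * ‖ζ + I‖ < ‖ζ + 3 * I‖ ^ 2 * ‖ζ + 3 * I‖ := by
        apply mul_lt_mul'' _ l2 (by positivity) p1.le
        gcongr
    _ = _ := by ring

/-! ### The derivative of `Z` and its inverse -/

/-- the derivative of `Z` -/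
noncomputable def L (c : ℂ) : ℂ →L[ℝ] ℂ :=
  (1 / 2 : ℝ) • (c • (1 : ℂ →L[ℝ] ℂ) + (conjCLE : ℂ →L[ℝ] ℂ) ∘L (c⁻¹ • (1 : ℂ →L[ℝ] ℂ)))

lemma L_apply (c v : ℂ) : L c v = (1 / 2 : ℝ) • (c * v + (starRingEnd ℂ) (c⁻¹ * v)) := by
  simp [L]

/-- the inverse of `L` -/
noncomputable def Li (c : ℂ) : ℂ →L[ℝ] ℂ :=
  (2 / (normSq c ^ 2 - 1) : ℝ) • (((normSq c : ℂ) * (starRingEnd ℂ) c) • (1 : ℂ →L[ℝ] ℂ)
    - c • (conjCLE : ℂ →L[ℝ] ℂ))

lemma Li_apply (c v : ℂ) : Li c v = (2 / (normSq c ^ 2 - 1) : ℝ) •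
    ((normSq c : ℂ) * (starRingEnd ℂ) c * v - c * (starRingEnd ℂ) v) := by
  simp [Li]

lemma n_facts {c : ℂ} (hc : 1 < ‖c‖) : 1 < normSq c ∧ (normSq c : ℂ) ≠ 0 ∧
    ((normSq c : ℂ) ^ 2 - 1) ≠ 0 ∧ c * (starRingEnd ℂ) c = normSq c ∧
    (starRingEnd ℂ) (c⁻¹) = c / normSq c := by
  have h1 : 1 < normSq c := by
    rw [normSq_eq_norm_sq]
    nlinarith
  have h2 : (normSq c : ℂ) ≠ 0 := by
    rw [ofReal_ne_zero]
    linarith
  refine ⟨h1, h2, ?_, mul_conj c, ?_⟩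
  · have : ((normSq c : ℂ) ^ 2 - 1) = ((normSq c ^ 2 - 1 : ℝ) : ℂ) := by push_cast; ring
    rw [this, ofReal_ne_zero]
    nlinarith
  · have hc0 : c ≠ 0 := by
      rintro rfl
      simp at h2
    rw [inv_def, map_mul, conj_conj, conj_ofReal]
    push_cast
    rw [div_eq_mul_inv]

lemma L_Li {c : ℂ} (hc : 1 < ‖c‖) (v : ℂ) : L c (Li c v) = v := by
  obtain ⟨h1, h2, h3, h4, h5⟩ := n_facts hc
  rw [L_apply, Li_apply]
  simp only [real_smul, map_mul, map_sub, conj_conj, conj_ofReal, h5]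
  push_cast
  field_simp
  linear_combination ((normSq c : ℂ) ^ 2 * v - v) * h4

lemma Li_L {c : ℂ} (hc : 1 < ‖c‖) (v : ℂ) : Li c (L c v) = v := by
  obtain ⟨h1, h2, h3, h4, h5⟩ := n_facts hc
  have hc0 : c ≠ 0 := by
    rintro rfl
    simp at h2
  rw [L_apply, Li_apply]
  simp only [real_smul, map_mul, map_add, map_div₀, conj_conj, conj_ofReal, h5]
  push_cast
  field_simp
  linear_combination ((normSq c : ℂ) ^ 2 * v - v) * h4

/-- the derivative of `Z` as an isomorphism -/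
noncomputable def Le (c : ℂ) (hc : 1 < ‖c‖) : ℂ ≃L[ℝ] ℂ :=
  ContinuousLinearEquiv.equivOfInverse (L c) (Li c) (Li_L hc) (L_Li hc)

lemma hasStrictFDerivAt_Z {ζ : ℂ} (h : 0 ≤ ζ.im) (h0 : ζ ≠ 0) :
    HasStrictFDerivAt Z (L (a ζ)) ζ := by
  have h1 : HasStrictFDerivAt A (a ζ • (1 : ℂ →L[ℝ] ℂ)) ζ :=
    (hasStrictDerivAt_A h h0).complexToReal_fderiv
  have h2 : HasStrictFDerivAt B ((a ζ)⁻¹ • (1 : ℂ →L[ℝ] ℂ)) ζ :=
    (hasStrictDerivAt_B h).complexToReal_fderiv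
  have h3 : HasStrictFDerivAt (fun w => (starRingEnd ℂ) (B w))
      ((conjCLE : ℂ →L[ℝ] ℂ) ∘L ((a ζ)⁻¹ • (1 : ℂ →L[ℝ] ℂ))) ζ :=
    HasStrictFDerivAt.comp (g := fun w : ℂ => (starRingEnd ℂ) w) ζ
      (conjCLE : ℂ →L[ℝ] ℂ).hasStrictFDerivAt h2
  exact (h1.add h3).const_smul (1 / 2 : ℝ)

lemma contDiffAt_Z {ζ : ℂ} (h : 0 < ζ.im) : ContDiffAt ℝ 2 Z ζ := by
  have h0 : ζ ≠ 0 := by
    rintro rfl
    simp at h
  have hA : ContDiffAt ℂ 2 A ζ := by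
    unfold A
    have e1 : ContDiffAt ℂ 2 (fun ζ : ℂ => 27 / ζ) ζ := contDiffAt_const.div contDiffAt_id h0
    have e2 : ContDiffAt ℂ 2 (fun ζ : ℂ => log (ζ + I)) ζ :=
      ContDiffAt.comp (g := log) ζ (contDiffAt_log (mem_slit1 h.le))
        (contDiffAt_id.add contDiffAt_const)
    exact (contDiffAt_id.add e1).add (contDiffAt_const.mul e2)
  have hB : ContDiffAt ℂ 2 B ζ := by
    unfold B
    have e0 : ContDiffAt ℂ 2 (fun ζ : ℂ => ζ + 3 * I) ζ := contDiffAt_id.add contDiffAt_const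
    have e2 : ContDiffAt ℂ 2 (fun ζ : ℂ => log (ζ + 3 * I)) ζ :=
      ContDiffAt.comp (g := log) ζ (contDiffAt_log (mem_slit3 h.le)) e0
    exact ((contDiffAt_id.sub (contDiffAt_const.mul e2)).add
      (contDiffAt_const.div e0 (ne3 h.le))).sub
      (contDiffAt_const.div (e0.pow 2) (pow_ne_zero 2 (ne3 h.le)))
  have h1 : ContDiffAt ℝ 2 A ζ := hA.restrict_scalars ℝ
  have h2 : ContDiffAt ℝ 2 B ζ := hB.restrict_scalars ℝ
  have h3 : ContDiffAt ℝ 2 (fun w => (starRingEnd ℂ) (B w)) ζ :=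
    ContDiffAt.comp (g := fun w : ℂ => (starRingEnd ℂ) w) ζ
      (conjCLE : ℂ →L[ℝ] ℂ).contDiff.contDiffAt h2
  exact (h1.add h3).const_smul (1 / 2 : ℝ)

/-! ### Bounds for `Z` -/

lemma norm_add_ge {ζ : ℂ} (h : 0 ≤ ζ.im) {c : ℝ} (hc : 0 ≤ c) :
    ‖ζ‖ ≤ ‖ζ + c * I‖ ∧ c ≤ ‖ζ + c * I‖ := by
  have h1 := norm_sq_add (ζ := ζ) c
  have h2 : ‖ζ‖ ^ 2 = ζ.re ^ 2 + ζ.im ^ 2 := by
    have := norm_sq_add (ζ := ζ) 0
    simpa using this
  constructor
  · apply le_of_sq_le_sq _ (norm_nonneg _)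
    rw [h1, h2]
    nlinarith
  · apply le_of_sq_le_sq _ (norm_nonneg _)
    rw [h1]
    nlinarith [sq_nonneg ζ.re, mul_nonneg h hc, sq_nonneg ζ.im]

noncomputable def err (ζ : ℂ) : ℝ := (-(21 / (ζ + 3 * I)) + 9 * I / (ζ + 3 * I) ^ 2).im / 2

lemma norm_3 {ζ : ℂ} (h : 0 ≤ ζ.im) : ‖ζ‖ ≤ ‖ζ + 3 * I‖ ∧ 3 ≤ ‖ζ + 3 * I‖ := by
  have := norm_add_ge h (c := 3) (by norm_num)
  simpa using this

lemma norm_1 {ζ : ℂ} (h : 0 ≤ ζ.im) : ‖ζ‖ ≤ ‖ζ + I‖ ∧ 1 ≤ ‖ζ + I‖ := by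
  have := norm_add_ge h (c := 1) (by norm_num)
  simpa using this

lemma rest_le {ζ : ℂ} (h : 0 ≤ ζ.im) :
    ‖21 / (ζ + 3 * I)‖ ≤ 7 ∧ ‖9 * I / (ζ + 3 * I) ^ 2‖ ≤ 1 := by
  have h3 := (norm_3 h).2
  constructor
  · rw [norm_div, div_le_iff₀ (by linarith)]
    simp only [norm_ofNat]
    linarith
  · rw [norm_div, norm_mul, norm_pow, norm_I, div_le_iff₀ (by nlinarith)]
    simp only [norm_ofNat]
    nlinarith

lemma abs_err {ζ : ℂ} (h : 0 ≤ ζ.im) : |err ζ| ≤ 4 := by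
  obtain ⟨h1, h2⟩ := rest_le h
  unfold err
  rw [abs_div, abs_of_pos (by norm_num : (0 : ℝ) < 2), div_le_iff₀ (by norm_num)]
  refine (abs_im_le_norm _).trans ((norm_add_le _ _).trans ?_)
  rw [norm_neg]
  linarith

lemma Z_im {ζ : ℂ} : (Z ζ).im = -(27 / 2) * ζ.im / ‖ζ‖ ^ 2
    + 4 * Real.log ‖ζ + I‖ + 4 * Real.log ‖ζ + 3 * I‖ + err ζ := by
  have e1 := (inv_parts ζ).2
  have h2 : ‖ζ‖ ^ 2 = ζ.re ^ 2 + ζ.im ^ 2 := by
    have := norm_sq_add (ζ := ζ) 0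
    simpa using this
  unfold Z A B err
  simp only [div_eq_mul_inv]
  rw [← log_re (ζ + I), ← log_re (ζ + 3 * I), h2]
  have e2 : -(27 * 2⁻¹) * ζ.im * (ζ.re ^ 2 + ζ.im ^ 2)⁻¹ = 27 / 2 * (ζ⁻¹).im := by
    rw [e1]
    ring
  rw [e2]
  generalize log (ζ + I) = w1
  generalize log (ζ + 3 * I) = w2
  generalize (ζ + 3 * I)⁻¹ = w3
  generalize ((ζ + 3 * I) ^ 2)⁻¹ = w4
  generalize ζ⁻¹ = w5
  simp
  ring

lemma im_div_le {ζ : ℂ} : ζ.im / ‖ζ‖ ^ 2 ≤ 1 / ‖ζ‖ := by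
  by_cases h0 : ζ = 0
  · simp [h0]
  have h1 : 0 < ‖ζ‖ := norm_pos_iff.2 h0
  rw [div_le_div_iff₀ (by positivity) h1]
  have := (abs_le.1 (abs_im_le_norm ζ)).2
  nlinarith

lemma Z_im_ge {ζ : ℂ} (h : 0 ≤ ζ.im) : -(27 / 2) * ζ.im / ‖ζ‖ ^ 2 - 4 ≤ (Z ζ).im := by
  rw [Z_im]
  have h1 := Real.log_nonneg (norm_1 h).2
  have h2 := Real.log_nonneg ((by norm_num : (1 : ℝ) ≤ 3).trans (norm_3 h).2)
  have h3 := (abs_le.1 (abs_err h)).1
  linarith

lemma Z_im_ge' {ζ : ℂ} (h : 0 ≤ ζ.im) (h1 : 1 ≤ ‖ζ‖) : 8 * Real.log ‖ζ‖ - 18 ≤ (Z ζ).im := by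
  rw [Z_im]
  have l1 := Real.log_le_log (by linarith) (norm_1 h).1
  have l2 := Real.log_le_log (by linarith) (norm_3 h).1
  have h3 := (abs_le.1 (abs_err h)).1
  have h4 := im_div_le (ζ := ζ)
  have h5 : 1 / ‖ζ‖ ≤ 1 := by
    rw [div_le_one (by linarith)]
    exact h1
  have h6 : -(27 / 2) * ζ.im / ‖ζ‖ ^ 2 = -(27 / 2) * (ζ.im / ‖ζ‖ ^ 2) := by ring
  rw [h6]
  linarith

lemma Z_im_le {ζ : ℂ} (h : 0 ≤ ζ.im) (h1 : ‖ζ‖ ≤ 1) :
    (Z ζ).im ≤ -(27 / 2) * ζ.im / ‖ζ‖ ^ 2 + (4 * Real.log 2 + 4 * Real.log 4 + 4) := by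
  rw [Z_im]
  have n1 : ‖ζ + I‖ ≤ 2 := (norm_add_le _ _).trans (by rw [norm_I]; linarith)
  have n2 : ‖ζ + 3 * I‖ ≤ 4 := (norm_add_le _ _).trans (by
    rw [norm_mul, norm_I]; simp only [norm_ofNat]; linarith)
  have l1 := Real.log_le_log (by linarith [(norm_1 h).2]) n1
  have l2 := Real.log_le_log (by linarith [(norm_3 h).2]) n2
  have h3 := (abs_le.1 (abs_err h)).2
  linarith

lemma norm_log_le {w : ℂ} {c : ℝ} (h1 : 1 ≤ ‖w‖) (h2 : ‖w‖ ≤ Real.exp c) :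
    ‖log w‖ ≤ c + π := by
  have h3 : |(log w).re| ≤ c := by
    rw [log_re, abs_of_nonneg (Real.log_nonneg h1)]
    rw [← Real.log_exp c]
    exact Real.log_le_log (by linarith) h2
  have h4 : |(log w).im| ≤ π := by
    rw [log_im]
    exact abs_arg_le_pi w
  exact (norm_le_abs_re_add_abs_im _).trans (add_le_add h3 h4)

/-- behaviour at `0` -/
lemma Z_near_zero {ζ : ℂ} (h : 0 ≤ ζ.im) (h1 : ‖ζ‖ ≤ 1) : ‖Z ζ - 27 / 2 / ζ‖ ≤ 60 := by
  have hpi := Real.pi_lt_d2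
  obtain ⟨r1, r2⟩ := rest_le h
  have n1 : ‖ζ + I‖ ≤ 2 := (norm_add_le _ _).trans (by rw [norm_I]; linarith)
  have n2 : ‖ζ + 3 * I‖ ≤ 4 := (norm_add_le _ _).trans (by
    rw [norm_mul, norm_I]; simp only [norm_ofNat]; linarith)
  have he1 : (2 : ℝ) ≤ Real.exp 1 := by
    have := Real.add_one_le_exp 1
    linarith
  have he2 : (4 : ℝ) ≤ Real.exp 2 := by
    have : Real.exp 2 = Real.exp 1 * Real.exp 1 := by rw [← Real.exp_add]; norm_num
    rw [this]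
    nlinarith
  have l1 := norm_log_le (norm_1 h).2 (n1.trans he1)
  have l2 := norm_log_le (by linarith [(norm_3 h).2]) (n2.trans he2)
  have e1 : Z ζ - 27 / 2 / ζ = (1 / 2 : ℝ) • ((ζ + 8 * I * log (ζ + I))
      + (starRingEnd ℂ) (ζ - 8 * I * log (ζ + 3 * I) + 21 / (ζ + 3 * I)
        - 9 * I / (ζ + 3 * I) ^ 2)) := by
    unfold Z A B
    simp only [real_smul]
    push_cast
    ring
  rw [e1, norm_smul]
  have e2 : ‖ζ + 8 * I * log (ζ + I)‖ ≤ 1 + 8 * (1 + π) := by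
    refine (norm_add_le _ _).trans (add_le_add h1 ?_)
    rw [norm_mul, norm_mul, norm_I, mul_one]
    simp only [norm_ofNat]
    linarith
  have e3 : ‖(starRingEnd ℂ) (ζ - 8 * I * log (ζ + 3 * I) + 21 / (ζ + 3 * I)
        - 9 * I / (ζ + 3 * I) ^ 2)‖ ≤ 1 + 8 * (2 + π) + 7 + 1 := by
    rw [norm_conj]
    refine (norm_sub_le _ _).trans (add_le_add ((norm_add_le _ _).trans (add_le_add
      ((norm_sub_le _ _).trans (add_le_add h1 ?_)) r1)) r2)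
    rw [norm_mul, norm_mul, norm_I, mul_one]
    simp only [norm_ofNat]
    linarith
  have e4 : ‖(1 / 2 : ℝ)‖ = 1 / 2 := by norm_num
  rw [e4]
  have := (norm_add_le (ζ + 8 * I * log (ζ + I)) ((starRingEnd ℂ) (ζ - 8 * I * log (ζ + 3 * I)
    + 21 / (ζ + 3 * I) - 9 * I / (ζ + 3 * I) ^ 2)))
  linarith

/-- `Z` is proper on the closed half-plane without `0` -/
lemma proper (R : ℝ) : ∃ δ > 0, ∃ N : ℝ, ∀ ζ : ℂ, 0 ≤ ζ.im → ζ ≠ 0 → ‖Z ζ‖ ≤ R →
    δ ≤ ‖ζ‖ ∧ ‖ζ‖ ≤ N := by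
  refine ⟨min 1 (27 / 2 / (|R| + 60)), by positivity, max 1 (Real.exp ((R + 18) / 8)),
    fun ζ h h0 hR => ⟨?_, ?_⟩⟩
  · by_contra hn
    push Not at hn
    have h1 : ‖ζ‖ ≤ 1 := (hn.trans_le (min_le_left _ _)).le
    have h2 := hn.trans_le (min_le_right _ _)
    have h3 := Z_near_zero h h1
    have h4 : ‖(27 / 2 / ζ : ℂ)‖ ≤ R + 60 := by
      have := norm_sub_norm_le (27 / 2 / ζ) (Z ζ)
      rw [norm_sub_rev] at this
      linarith
    have h5 : 0 < ‖ζ‖ := norm_pos_iff.2 h0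
    rw [norm_div, div_le_iff₀ h5] at h4
    rw [lt_div_iff₀ (by positivity)] at h2
    have h6 : ‖(27 / 2 : ℂ)‖ = 27 / 2 := by simp
    rw [h6] at h4
    have := le_abs_self R
    nlinarith
  · by_cases h1 : ‖ζ‖ ≤ 1
    · exact h1.trans (le_max_left _ _)
    · push Not at h1
      refine le_trans ?_ (le_max_right _ _)
      have h2 := Z_im_ge' h h1.le
      have h3 := (abs_le.1 (abs_im_le_norm (Z ζ))).2
      rw [← Real.log_le_iff_le_exp (by linarith)]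
      linarith

/-! ### Injectivity -/

/-- logarithmic coordinates (the angle comes first) -/
noncomputable def pol (x : ℝ × ℝ) : ℂ := cexp (x.2 + x.1 * I)

/-- the linear map `(dθ, dρ) ↦ dρ + i dθ` -/
noncomputable def J : ℝ × ℝ →L[ℝ] ℂ :=
  ofRealCLM ∘L ContinuousLinearMap.snd ℝ ℝ ℝ
    + (ContinuousLinearMap.smulRight (1 : ℝ →L[ℝ] ℝ) I) ∘L ContinuousLinearMap.fst ℝ ℝ ℝ

lemma J_apply (x : ℝ × ℝ) : J x = x.2 + x.1 * I := by
  simp [J]

lemma pol_eq (x : ℝ × ℝ) : pol x = cexp (J x) := by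
  rw [J_apply, pol]

lemma pol_im (x : ℝ × ℝ) : (pol x).im = Real.exp x.2 * Real.sin x.1 := by
  rw [pol, exp_im]
  simp

lemma norm_pol (x : ℝ × ℝ) : ‖pol x‖ = Real.exp x.2 := by
  rw [pol, norm_exp]
  simp

lemma pol_im_pos {x : ℝ × ℝ} (hx : x.1 ∈ Ioo 0 π) : 0 < (pol x).im := by
  rw [pol_im]
  exact mul_pos (Real.exp_pos _) (Real.sin_pos_of_mem_Ioo hx)

lemma pol_ne (x : ℝ × ℝ) : pol x ≠ 0 := exp_ne_zero _

lemma exists_pol {ζ : ℂ} (h : 0 < ζ.im) : ∃ x : ℝ × ℝ, x.1 ∈ Ioo 0 π ∧ pol x = ζ := by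
  have h0 : ζ ≠ 0 := by
    rintro rfl
    simp at h
  refine ⟨(ζ.arg, Real.log ‖ζ‖), ⟨?_, ?_⟩, ?_⟩
  · refine lt_of_le_of_ne (arg_nonneg_iff.2 h.le) fun h1 => ?_
    have := (arg_eq_zero_iff.1 h1.symm).2
    linarith
  · refine lt_of_le_of_ne (arg_le_pi ζ) fun h1 => ?_
    rw [arg_eq_pi_iff] at h1
    linarith [h1.2]
  · rw [pol]
    have := exp_log h0
    conv_rhs => rw [← this]
    congr 1

lemma hasStrictFDerivAt_Zpol {x : ℝ × ℝ} (hx : x.1 ∈ Ioo 0 π) :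
    HasStrictFDerivAt (fun x => Z (pol x)) (L (a (pol x)) ∘L (pol x • J)) x := by
  have h1 : HasStrictFDerivAt pol (pol x • J) x := by
    have h2 : HasStrictFDerivAt (fun x => cexp (J x)) (cexp (J x) • J) x :=
      J.hasStrictFDerivAt.cexp
    rw [← pol_eq] at h2
    refine h2.congr_of_eventuallyEq (Eventually.of_forall fun y => (pol_eq y).symm)
  exact HasStrictFDerivAt.comp (g := Z) x
    (hasStrictFDerivAt_Z (pol_im_pos hx).le (pol_ne x)) h1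

lemma Z_injOn {ζ₁ ζ₂ : ℂ} (h₁ : 0 < ζ₁.im) (h₂ : 0 < ζ₂.im) (h : Z ζ₁ = Z ζ₂) : ζ₁ = ζ₂ := by
  obtain ⟨x, hx, rfl⟩ := exists_pol h₁
  obtain ⟨y, hy, rfl⟩ := exists_pol h₂
  have hxy : x = y := by
    refine Pool.Agent.R208.LevelInj.injOn (α := 0) (β := π) (Q := fun x => (Z (pol x)).im)
      (P := fun x => (Z (pol x)).re)
      (Q' := fun x => imCLM ∘L (L (a (pol x)) ∘L (pol x • J)))
      (P' := fun x => reCLM ∘L (L (a (pol x)) ∘L (pol x • J))) ?_ ?_ ?_ ?_ ?_ ?_ hx hy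
      (congrArg im h) (congrArg re h)
    · exact fun x hx => imCLM.hasStrictFDerivAt.comp x (hasStrictFDerivAt_Zpol hx)
    · exact fun x hx => (reCLM.hasStrictFDerivAt.comp x (hasStrictFDerivAt_Zpol hx)).hasFDerivAt
    · intro x hx
      have h1 := im_pos (pol_im_pos hx)
      have e : (imCLM ∘L (L (a (pol x)) ∘L (pol x • J))) (0, 1)
          = (pol x * a (pol x) - pol x * (a (pol x))⁻¹).im / 2 := by
        simp only [ContinuousLinearMap.comp_apply, smul_apply, J_apply, L_apply, imCLM_apply]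
        generalize a (pol x) = c
        generalize pol x = ζ
        generalize c⁻¹ = c'
        simp
        ring
      rw [e]
      positivity
    · intro x hx
      have h1 := one_lt_norm_a (pol_im_pos hx)
      have e : ∀ v : ℝ × ℝ, (L (a (pol x)) ∘L (pol x • J)) v
          = (1 / 2 : ℝ) • ((a (pol x) * pol x) * (v.2 + v.1 * I)
            + (starRingEnd ℂ) (((a (pol x))⁻¹ * pol x) * (v.2 + v.1 * I))) := by
        intro v
        simp only [ContinuousLinearMap.comp_apply, smul_apply, J_apply, L_apply]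
        rw [smul_eq_mul, ← mul_assoc, ← mul_assoc]
      have n1 : normSq (a (pol x) * pol x) = normSq (a (pol x)) * normSq (pol x) := map_mul _ _ _
      have n2 : normSq ((a (pol x))⁻¹ * pol x) = (normSq (a (pol x)))⁻¹ * normSq (pol x) := by
        rw [map_mul, map_inv₀]
      have n3 : 1 < normSq (a (pol x)) := by
        rw [normSq_eq_norm_sq]
        nlinarith
      have n4 : 0 < normSq (pol x) := normSq_pos.2 (pol_ne x)
      have n5 : (normSq (a (pol x)))⁻¹ < 1 := inv_lt_one_of_one_lt₀ n3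
      have n6 : normSq ((a (pol x))⁻¹ * pol x) < normSq (a (pol x) * pol x) := by
        rw [n1, n2]
        exact mul_lt_mul_of_pos_right (n5.trans n3) n4
      simp only [ContinuousLinearMap.comp_apply, imCLM_apply, reCLM_apply]
      simp only [ContinuousLinearMap.comp_apply] at e
      rw [e, e]
      generalize a (pol x) * pol x = p at *
      generalize (a (pol x))⁻¹ * pol x = q at *
      rw [normSq_apply, normSq_apply] at n6
      simp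
      nlinarith
    · intro θ hθ
      have hs := Real.sin_pos_of_mem_Ioo hθ
      have h1 : ∀ᶠ ρ in atBot, (Z (pol (θ, ρ))).im ≤ -(27 / 2) * Real.sin θ * Real.exp (-ρ)
          + (4 * Real.log 2 + 4 * Real.log 4 + 4) := by
        filter_upwards [eventually_le_atBot 0] with ρ hρ
        refine (Z_im_le (pol_im_pos (x := (θ, ρ)) hθ).le ?_).trans (le_of_eq ?_)
        · rw [norm_pol]
          exact Real.exp_le_one_iff.2 hρ
        · rw [pol_im, norm_pol, Real.exp_neg]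
          have := Real.exp_pos ρ
          field_simp
      refine tendsto_atBot_mono' _ h1 ?_
      apply tendsto_atBot_add_const_right
      apply Tendsto.const_mul_atTop_of_neg (by nlinarith)
      exact Real.tendsto_exp_atTop.comp tendsto_neg_atBot_atTop
    · intro θ hθ
      have h1 : ∀ᶠ ρ in atTop, 8 * ρ - 18 ≤ (Z (pol (θ, ρ))).im := by
        filter_upwards [eventually_ge_atTop 0] with ρ hρ
        have h2 := Z_im_ge' (pol_im_pos (x := (θ, ρ)) hθ).le (by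
          rw [norm_pol]
          exact Real.one_le_exp hρ)
        rw [norm_pol, Real.log_exp] at h2
        exact h2
      refine tendsto_atTop_mono' _ h1 ?_
      apply tendsto_atTop_add_const_right
      exact tendsto_id.const_mul_atTop (by norm_num)
  rw [hxy]

/-! ### The domain and the solution -/

/-- the upper half-plane -/
def H : Set ℂ := {ζ | 0 < ζ.im}

/-- the domain -/
def D : Set ℂ := Z '' H

/-- the inverse of `Z` -/
noncomputable def G : ℂ → ℂ := Function.invFunOn Z H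

/-- the solution -/
noncomputable def u (z : ℂ) : ℝ := open Classical in if z ∈ D then (G z).im else 0

lemma ne_zero_of_mem {ζ : ℂ} (h : ζ ∈ H) : ζ ≠ 0 := by
  rintro rfl
  simp [H] at h

lemma G_mem {z : ℂ} (hz : z ∈ D) : G z ∈ H := Function.invFunOn_mem hz
lemma Z_G {z : ℂ} (hz : z ∈ D) : Z (G z) = z := Function.invFunOn_eq hz
lemma G_Z {ζ : ℂ} (h : ζ ∈ H) : G (Z ζ) = ζ :=
  Z_injOn (G_mem ⟨ζ, h, rfl⟩) h (Z_G ⟨ζ, h, rfl⟩)

lemma u_Z {ζ : ℂ} (h : ζ ∈ H) : u (Z ζ) = ζ.im := by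
  rw [u, if_pos ⟨ζ, h, rfl⟩, G_Z h]

lemma isOpen_H : IsOpen H := isOpen_lt continuous_const continuous_im

/-- the inverse is smooth -/
lemma G_smooth {z : ℂ} (hz : z ∈ D) : D ∈ 𝓝 z ∧ ContDiffAt ℝ 2 G z ∧
    HasFDerivAt G (Li (a (G z))) z := by
  have hζ := G_mem hz
  have ha := one_lt_norm_a hζ
  have hc : ContDiffAt ℝ 2 Z (G z) := contDiffAt_Z hζ
  have hd : HasStrictFDerivAt Z (Le (a (G z)) ha : ℂ →L[ℝ] ℂ) (G z) :=
    hasStrictFDerivAt_Z (le_of_lt hζ) (ne_zero_of_mem hζ)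
  have h1 := hc.to_localInverse hd.hasFDerivAt (by norm_num)
  have h2 := hd.to_localInverse
  have h3 := hd.eventually_right_inverse
  set ψ := hd.localInverse Z (Le (a (G z)) ha) (G z) with hψ
  have h4 : Tendsto ψ (𝓝 z) (𝓝 (G z)) := by
    have h5 := h2.continuousAt.tendsto
    rw [Z_G hz] at h5
    have h6 : ψ z = G z := by
      have := hd.localInverse_apply_image
      rwa [Z_G hz] at this
    rwa [h6] at h5
  rw [Z_G hz] at h2 h3
  have h5 : ∀ᶠ w in 𝓝 z, w ∈ D ∧ G w = ψ w := by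
    filter_upwards [h3, h4.eventually (isOpen_H.mem_nhds hζ)] with w hw hw2
    refine ⟨⟨ψ w, hw2, hw⟩, ?_⟩
    have := G_Z hw2
    rwa [hw] at this
  have h6 : G =ᶠ[𝓝 z] ψ := h5.mono fun w hw => hw.2
  refine ⟨h5.mono fun w hw => hw.1, ?_, ?_⟩
  · have h7 : ContDiffAt ℝ 2 ψ z := by
      have := h1
      rw [Z_G hz] at this
      exact this
    exact h7.congr_of_eventuallyEq h6
  · have h7 : HasFDerivAt G ((Le (a (G z)) ha).symm : ℂ →L[ℝ] ℂ) z :=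
      h2.hasFDerivAt.congr_of_eventuallyEq h6
    exact h7

lemma isOpen_D : IsOpen D := isOpen_iff_mem_nhds.2 fun _ hz => (G_smooth hz).1

lemma u_eventually {z : ℂ} (hz : z ∈ D) : u =ᶠ[𝓝 z] fun w => (G w).im := by
  filter_upwards [(G_smooth hz).1] with w hw
  rw [u, if_pos hw]

lemma contDiffAt_u {z : ℂ} (hz : z ∈ D) : ContDiffAt ℝ 2 u z := by
  have h1 : ContDiffAt ℝ 2 (fun w => (G w).im) z :=
    imCLM.contDiff.contDiffAt.comp z (G_smooth hz).2.1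
  exact h1.congr_of_eventuallyEq (u_eventually hz)

lemma fderiv_u {z : ℂ} (hz : z ∈ D) (v : ℂ) : fderiv ℝ u z v = (Li (a (G z)) v).im := by
  rw [(u_eventually hz).fderiv_eq]
  have h1 : HasFDerivAt (fun w => (G w).im) (imCLM ∘L Li (a (G z))) z :=
    imCLM.hasFDerivAt.comp z (G_smooth hz).2.2
  rw [h1.fderiv]
  rfl

/-- the conjugate function -/
noncomputable def ξ (z : ℂ) : ℝ := (G z).re

lemma contDiffAt_ξ {z : ℂ} (hz : z ∈ D) : ContDiffAt ℝ 2 ξ z :=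
  reCLM.contDiff.contDiffAt.comp z (G_smooth hz).2.1

lemma fderiv_ξ {z : ℂ} (hz : z ∈ D) (v : ℂ) : fderiv ℝ ξ z v = (Li (a (G z)) v).re := by
  have h1 : HasFDerivAt ξ (reCLM ∘L Li (a (G z))) z :=
    reCLM.hasFDerivAt.comp z (G_smooth hz).2.2
  rw [h1.fderiv]
  rfl

lemma Li_parts (c : ℂ) :
    (Li c 1).re = 2 / (normSq c ^ 2 - 1) * ((normSq c - 1) * c.re) ∧
    (Li c 1).im = 2 / (normSq c ^ 2 - 1) * (-(normSq c + 1) * c.im) ∧
    (Li c I).re = 2 / (normSq c ^ 2 - 1) * ((normSq c - 1) * c.im) ∧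
    (Li c I).im = 2 / (normSq c ^ 2 - 1) * ((normSq c + 1) * c.re) := by
  refine ⟨?_, ?_, ?_, ?_⟩
  all_goals
    rw [Li_apply]
    generalize normSq c = n
    generalize 2 / (n ^ 2 - 1) = k
    simp [-mul_eq_mul_left_iff]
    ring

/-- the conjugate relations -/
lemma conj_rel {z : ℂ} (hz : z ∈ D) : ux u z / W u z = -fderiv ℝ ξ z I ∧
    uy u z / W u z = fderiv ℝ ξ z 1 := by
  have ha := one_lt_norm_a (G_mem hz)
  set c := a (G z) with hc
  have hn : 1 < normSq c := by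
    rw [normSq_eq_norm_sq]
    nlinarith
  have hn1 : 0 < normSq c - 1 := by linarith
  have hn2 : 0 < normSq c + 1 := by linarith
  have hn3 : normSq c ^ 2 - 1 = (normSq c - 1) * (normSq c + 1) := by ring
  obtain ⟨p1, p2, p3, p4⟩ := Li_parts c
  rw [hn3] at p1 p2 p3 p4
  have e1 : ux u z = -2 * c.im / (normSq c - 1) := by
    rw [ux, fderiv_u hz, ← hc, p2]
    field_simp
  have e2 : uy u z = 2 * c.re / (normSq c - 1) := by
    rw [uy, fderiv_u hz, ← hc, p4]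
    field_simp
  have e3 : fderiv ℝ ξ z 1 = 2 * c.re / (normSq c + 1) := by
    rw [fderiv_ξ hz, ← hc, p1]
    field_simp
  have e4 : fderiv ℝ ξ z I = 2 * c.im / (normSq c + 1) := by
    rw [fderiv_ξ hz, ← hc, p3]
    field_simp
  have e5 : W u z = (normSq c + 1) / (normSq c - 1) := by
    rw [W, e1, e2]
    rw [Real.sqrt_eq_iff_mul_self_eq (by positivity) (by positivity)]
    have : normSq c = c.re ^ 2 + c.im ^ 2 := by rw [normSq_apply]; ring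
    field_simp
    rw [this]
    ring
  rw [e1, e2, e3, e4, e5]
  constructor
  · field_simp
  · field_simp

lemma mse {z : ℂ} (hz : z ∈ D) : fderiv ℝ (fun w => ux u w / W u w) z 1
    + fderiv ℝ (fun w => uy u w / W u w) z Complex.I = 0 := by
  have h1 : (fun w => ux u w / W u w) =ᶠ[𝓝 z] fun w => -fderiv ℝ ξ w I := by
    filter_upwards [isOpen_D.mem_nhds hz] with w hw
    exact (conj_rel hw).1
  have h2 : (fun w => uy u w / W u w) =ᶠ[𝓝 z] fun w => fderiv ℝ ξ w 1 := by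
    filter_upwards [isOpen_D.mem_nhds hz] with w hw
    exact (conj_rel hw).2
  have h3 : DifferentiableAt ℝ (fderiv ℝ ξ) z :=
    ((contDiffAt_ξ hz).fderiv_right (m := 1) (by norm_num)).differentiableAt (by norm_num)
  have h4 : ∀ v : ℂ, HasFDerivAt (fun w => fderiv ℝ ξ w v)
      ((fderiv ℝ (fderiv ℝ ξ) z).flip v) z := by
    intro v
    have := h3.hasFDerivAt.clm_apply (hasFDerivAt_const v z)
    refine this.congr_fderiv ?_
    ext w
    simp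
  have h7 : HasFDerivAt (fun w => -fderiv ℝ ξ w I) (-(fderiv ℝ (fderiv ℝ ξ) z).flip I) z :=
    (h4 I).neg
  rw [h1.fderiv_eq, h2.fderiv_eq, (h4 1).fderiv, h7.fderiv]
  have h5 := (contDiffAt_ξ hz).isSymmSndFDerivAt (by simp)
  have h6 := h5 1 I
  simp only [neg_apply, ContinuousLinearMap.flip_apply]
  rw [h6]
  ring

/-! ### Boundary behaviour -/

/-- the part of the closed half-plane where `Z` is bounded by `R`, up to a compact set -/
def Kset (δ N e : ℝ) : Set ℂ := {ζ | δ ≤ ‖ζ‖ ∧ ‖ζ‖ ≤ N ∧ e ≤ ζ.im}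

lemma isCompact_Kset (δ N e : ℝ) : IsCompact (Kset δ N e) := by
  apply (isCompact_closedBall (0 : ℂ) N).of_isClosed_subset
  · exact (isClosed_le continuous_const continuous_norm).inter
      ((isClosed_le continuous_norm continuous_const).inter
        (isClosed_le continuous_const continuous_im))
  · intro ζ hζ
    simpa using hζ.2.1

lemma isClosed_image {δ N e : ℝ} (hδ : 0 < δ) (he : 0 ≤ e) : IsClosed (Z '' Kset δ N e) := by
  apply IsCompact.isClosed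
  apply (isCompact_Kset δ N e).image_of_continuousOn
  intro ζ hζ
  have h0 : ζ ≠ 0 := norm_pos_iff.1 (hδ.trans_le hζ.1)
  exact (hasStrictFDerivAt_Z (he.trans hζ.2.2) h0).continuousAt.continuousWithinAt

/-- points of the boundary come from the real line -/
lemma closure_sub {z : ℂ} (hz : z ∈ closure D) (hzD : z ∉ D) : ∃ x : ℝ, x ≠ 0 ∧ Z x = z := by
  obtain ⟨δ, hδ, N, hN⟩ := proper (‖z‖ + 1)
  have h1 : z ∈ closure (Z '' Kset δ N 0) := by
    rw [mem_closure_iff_nhds] at hz ⊢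
    intro t ht
    obtain ⟨w, ⟨hw1, hw2⟩, hwD⟩ := hz (t ∩ Metric.ball z 1)
      (inter_mem ht (Metric.ball_mem_nhds z one_pos))
    obtain ⟨ζ, hζ, rfl⟩ := hwD
    refine ⟨Z ζ, hw1, ζ, ?_, rfl⟩
    have h2 : ‖Z ζ‖ ≤ ‖z‖ + 1 := by
      have h3 : ‖Z ζ - z‖ < 1 := by simpa [dist_eq_norm] using hw2
      have h4 := norm_sub_norm_le (Z ζ) z
      linarith
    have h5 := hN ζ (le_of_lt hζ) (ne_zero_of_mem hζ) h2
    exact ⟨h5.1, h5.2, le_of_lt hζ⟩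
  rw [(isClosed_image hδ le_rfl).closure_eq] at h1
  obtain ⟨ζ, ⟨h2, -, h3⟩, rfl⟩ := h1
  have h4 : ζ.im = 0 := by
    by_contra hne
    exact hzD ⟨ζ, lt_of_le_of_ne h3 (Ne.symm hne), rfl⟩
  have h5 : ζ = (ζ.re : ℂ) := by
    apply Complex.ext
    · simp
    · simp [h4]
  refine ⟨ζ.re, ?_, by rw [← h5]⟩
  intro h6
  rw [h5, h6] at h2
  simp at h2
  linarith

/-- `u` is continuous with value `0` outside `D` -/
lemma continuousAt_u {z : ℂ} (hz : z ∉ D) : ContinuousAt u z := by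
  have hu : u z = 0 := by rw [u, if_neg hz]
  rw [Metric.continuousAt_iff']
  intro e he
  obtain ⟨δ, hδ, N, hN⟩ := proper (‖z‖ + 1)
  have h1 : z ∉ Z '' Kset δ N e := by
    rintro ⟨ζ, ⟨-, -, h2⟩, rfl⟩
    exact hz ⟨ζ, lt_of_lt_of_le he h2, rfl⟩
  filter_upwards [(isClosed_image hδ he.le).isOpen_compl.mem_nhds h1,
    Metric.ball_mem_nhds z one_pos] with w hw1 hw2
  rw [hu, Real.dist_eq, sub_zero]
  by_cases hwD : w ∈ D
  · obtain ⟨ζ, hζ, rfl⟩ := hwD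
    rw [u_Z hζ, abs_of_pos hζ]
    by_contra hn
    push Not at hn
    apply hw1
    refine ⟨ζ, ?_, rfl⟩
    have h2 : ‖Z ζ‖ ≤ ‖z‖ + 1 := by
      have h3 : ‖Z ζ - z‖ < 1 := by simpa [dist_eq_norm] using hw2
      have h4 := norm_sub_norm_le (Z ζ) z
      linarith
    have h5 := hN ζ (le_of_lt hζ) (ne_zero_of_mem hζ) h2
    exact ⟨h5.1, h5.2, hn⟩
  · rw [u, if_neg hwD, abs_zero]
    exact he

lemma isSolution : IsSolution D u := by
  refine ⟨fun z hz => (contDiffAt_u hz).contDiffWithinAt, ?_, fun z hz => mse hz, ?_, ?_⟩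
  · intro z _
    apply ContinuousAt.continuousWithinAt
    by_cases hz : z ∈ D
    · exact (contDiffAt_u hz).continuousAt
    · exact continuousAt_u hz
  · intro z hz
    rw [u, if_pos hz]
    exact G_mem hz
  · intro z hz
    rw [isOpen_D.frontier_eq] at hz
    rw [u, if_neg hz.2]

lemma isConnected_D : IsConnected D := by
  have h1 : IsConnected H := by
    have h2 : Convex ℝ H := by
      have : H = imLm ⁻¹' (Ioi 0) := rfl
      rw [this]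
      exact (convex_Ioi (0 : ℝ)).linear_preimage imLm
    exact h2.isConnected ⟨I, by simp [H]⟩
  apply h1.image
  intro ζ hζ
  exact (contDiffAt_Z hζ).continuousAt.continuousWithinAt

/-- `D` contains the half-plane `Im z < -4` -/
lemma halfplane : {z : ℂ | z.im < -4} ⊆ D := by
  have hconv : Convex ℝ {z : ℂ | z.im < -4} := by
    have : {z : ℂ | z.im < -4} = imLm ⁻¹' (Iio (-4)) := rfl
    rw [this]
    exact (convex_Iio (-4 : ℝ)).linear_preimage imLm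
  apply hconv.isPreconnected.subset_of_closure_inter_subset isOpen_D
  · -- nonempty
    have h1 : (Z ((1 / 10 : ℝ) * I)).im < -4 := by
      have h2 : ‖((1 / 10 : ℝ) * I : ℂ)‖ = 1 / 10 := by
        rw [norm_mul, norm_I, mul_one, norm_real]
        norm_num
      have h3 := Z_im_le (ζ := (1 / 10 : ℝ) * I) (by simp) (by rw [h2]; norm_num)
      rw [h2] at h3
      have h4 : ((1 / 10 : ℝ) * I : ℂ).im = 1 / 10 := by
        rw [im_ofReal_mul, I_im, mul_one]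
      rw [h4] at h3
      have h5 : Real.log 2 < 0.7 := by linarith [Real.log_two_lt_d9]
      have h6 : Real.log 4 = 2 * Real.log 2 := by
        have : (4 : ℝ) = 2 ^ 2 := by norm_num
        rw [this, Real.log_pow]
        norm_num
      rw [h6] at h3
      linarith
    refine ⟨Z ((1 / 10 : ℝ) * I), h1, (1 / 10 : ℝ) * I, ?_, rfl⟩
    show 0 < ((1 / 10 : ℝ) * I : ℂ).im
    rw [im_ofReal_mul]
    simp
  · rintro z ⟨hz1, hz2⟩
    by_contra hzD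
    obtain ⟨x, hx, rfl⟩ := closure_sub hz1 hzD
    have h1 := Z_im_ge (ζ := (x : ℂ)) (by simp)
    simp only [ofReal_im, mul_zero, zero_div, zero_sub] at h1
    have hz2 : (Z x).im < -4 := hz2
    linarith

/-! ### Growth -/

lemma Z_imag_axis {t : ℝ} (ht : 1 ≤ t) : ‖Z (t * I)‖ ≤ 8 * Real.log t + 80 := by
  have hpi := Real.pi_lt_d2
  have ht0 : 0 < t := by linarith
  have him : ((t : ℂ) * I).im = t := by simp
  have hre : ((t : ℂ) * I).re = 0 := by simp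
  have hn : ‖(t : ℂ) * I‖ = t := by
    rw [norm_mul, norm_I, mul_one, norm_real, Real.norm_eq_abs, abs_of_pos ht0]
  have h : 0 ≤ ((t : ℂ) * I).im := by rw [him]; exact ht0.le
  obtain ⟨r1, r2⟩ := rest_le h
  have hconj : (starRingEnd ℂ) ((t : ℂ) * I) = -((t : ℂ) * I) := by simp
  generalize (t : ℂ) * I = ζ at *
  have n1 : ‖ζ + I‖ ≤ 2 * t := (norm_add_le _ _).trans (by rw [norm_I]; linarith)
  have n2 : ‖ζ + 3 * I‖ ≤ 4 * t := (norm_add_le _ _).trans (by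
    rw [norm_mul, norm_I]; simp only [norm_ofNat]; linarith)
  have he1 : (2 : ℝ) ≤ Real.exp 1 := by
    have := Real.add_one_le_exp 1
    linarith
  have he2 : (4 : ℝ) ≤ Real.exp 2 := by
    have : Real.exp 2 = Real.exp 1 * Real.exp 1 := by rw [← Real.exp_add]; norm_num
    rw [this]
    nlinarith
  have m1 : 2 * t ≤ Real.exp (Real.log t + 1) := by
    rw [Real.exp_add, Real.exp_log ht0]
    nlinarith
  have m2 : 4 * t ≤ Real.exp (Real.log t + 2) := by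
    rw [Real.exp_add, Real.exp_log ht0]
    nlinarith
  have l1 := norm_log_le (norm_1 h).2 (n1.trans m1)
  have l2 := norm_log_le (by linarith [(norm_3 h).2]) (n2.trans m2)
  have e1 : Z ζ = (1 / 2 : ℝ) • ((27 / ζ + 8 * I * log (ζ + I))
      + (starRingEnd ℂ) (-(8 * I * log (ζ + 3 * I)) + 21 / (ζ + 3 * I)
        - 9 * I / (ζ + 3 * I) ^ 2)) := by
    unfold Z A B
    have e2 : (starRingEnd ℂ) (ζ - 8 * I * log (ζ + 3 * I) + 21 / (ζ + 3 * I)
        - 9 * I / (ζ + 3 * I) ^ 2) = -ζ + (starRingEnd ℂ) (-(8 * I * log (ζ + 3 * I))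
        + 21 / (ζ + 3 * I) - 9 * I / (ζ + 3 * I) ^ 2) := by
      rw [← hconj, ← map_add]
      congr 1
      ring
    rw [e2]
    congr 1
    ring
  rw [e1, norm_smul]
  have e2 : ‖27 / ζ + 8 * I * log (ζ + I)‖ ≤ 27 + 8 * (Real.log t + 1 + π) := by
    refine (norm_add_le _ _).trans (add_le_add ?_ ?_)
    · rw [norm_div, hn, div_le_iff₀ ht0]
      simp only [norm_ofNat]
      linarith
    · rw [norm_mul, norm_mul, norm_I, mul_one]
      simp only [norm_ofNat]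
      linarith
  have e3 : ‖(starRingEnd ℂ) (-(8 * I * log (ζ + 3 * I)) + 21 / (ζ + 3 * I)
        - 9 * I / (ζ + 3 * I) ^ 2)‖ ≤ 8 * (Real.log t + 2 + π) + 7 + 1 := by
    rw [norm_conj]
    refine (norm_sub_le _ _).trans (add_le_add ((norm_add_le _ _).trans (add_le_add ?_ r1)) r2)
    rw [norm_neg, norm_mul, norm_mul, norm_I, mul_one]
    simp only [norm_ofNat]
    linarith
  have e4 : ‖(1 / 2 : ℝ)‖ = 1 / 2 := by norm_num
  rw [e4]
  have := (norm_add_le (27 / ζ + 8 * I * log (ζ + I)) ((starRingEnd ℂ)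
    (-(8 * I * log (ζ + 3 * I)) + 21 / (ζ + 3 * I) - 9 * I / (ζ + 3 * I) ^ 2)))
  linarith

lemma growth {r : ℝ} (hr : 720 < r) : ∃ z ∈ D, ‖z‖ = r ∧ Real.exp (r / 9) ≤ u z := by
  have hmem : ∀ t : ℝ, 1 ≤ t → (t : ℂ) * I ∈ H := by
    intro t ht
    show 0 < ((t : ℂ) * I).im
    simp
    linarith
  have hcont : ContinuousOn (fun t : ℝ => ‖Z (t * I)‖) (Ici 1) := by
    intro t ht
    apply ContinuousAt.continuousWithinAt
    apply ContinuousAt.norm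
    exact ContinuousAt.comp (g := Z) (f := fun t : ℝ => (t : ℂ) * I)
      (contDiffAt_Z (hmem t ht)).continuousAt (by fun_prop)
  set T : ℝ := Real.exp ((r + 18) / 8) with hT
  have hT1 : 1 ≤ T := Real.one_le_exp (by linarith)
  have h1 : ‖Z ((1 : ℝ) * I)‖ ≤ r := by
    have := Z_imag_axis (t := 1) le_rfl
    rw [Real.log_one] at this
    linarith
  have h2 : r ≤ ‖Z (T * I)‖ := by
    have hn : ‖(T : ℂ) * I‖ = T := by
      rw [norm_mul, norm_I, mul_one, norm_real, Real.norm_eq_abs, abs_of_pos (by linarith)]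
    have h3 := Z_im_ge' (le_of_lt (hmem T hT1)) (by rw [hn]; exact hT1)
    rw [hn, hT, Real.log_exp] at h3
    have h4 := (abs_le.1 (abs_im_le_norm (Z (T * I)))).2
    linarith
  obtain ⟨t, ht, htr⟩ := intermediate_value_Icc hT1 (hcont.mono Icc_subset_Ici_self) ⟨h1, h2⟩
  refine ⟨Z (t * I), ⟨t * I, hmem t ht.1, rfl⟩, htr, ?_⟩
  rw [u_Z (hmem t ht.1)]
  have h3 := Z_imag_axis ht.1
  simp only at htr
  rw [htr] at h3
  have h4 : ((t : ℂ) * I).im = t := by simp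
  have ht0 : 0 < t := by linarith [ht.1]
  rw [h4, ← Real.le_log_iff_exp_le ht0]
  linarith

end aux

/-- **Main theorem.** There are an open connected set `D` containing a half-plane
`{Re (e^{iθ} z) > a}` and a solution `u` of `(∗)` in `D` of exponential growth: for every `r > 720`
there is `z ∈ D` with `|z| = r` and `u(z) ≥ exp (r / 9)`. In particular `limsup M(r) / r = ∞`: for
all `C` and `r₀` there are `r > r₀` and `z ∈ D` with `|z| = r` and `u(z) > C r`. -/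
theorem result : ∃ (D : Set ℂ) (u : ℂ → ℝ), IsOpen D ∧ IsConnected D ∧
    (∃ θ a : ℝ, {z : ℂ | a < (cexp (θ * I) * z).re} ⊆ D) ∧ IsSolution D u ∧
    (∀ r : ℝ, 720 < r → ∃ z ∈ D, ‖z‖ = r ∧ Real.exp (r / 9) ≤ u z) ∧
    (∀ C r₀ : ℝ, ∃ r > r₀, ∃ z ∈ D, ‖z‖ = r ∧ C * r < u z) := by
  refine ⟨D, u, isOpen_D, isConnected_D, ⟨π / 2, 4, fun z hz => ?_⟩, isSolution,
    fun r hr => growth hr, fun C r₀ => ?_⟩
  · apply halfplane
    have e : cexp ((π / 2 : ℝ) * I) = I := by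
      push_cast
      exact exp_pi_div_two_mul_I
    have hz : 4 < (cexp ((π / 2 : ℝ) * I) * z).re := hz
    rw [e] at hz
    show z.im < -4
    simp at hz
    linarith
  · set r : ℝ := max (max (r₀ + 1) 721) (162 * |C| + 1) with hr
    have h1 : r₀ + 1 ≤ r := (le_max_left _ _).trans (le_max_left _ _)
    have h2 : 721 ≤ r := (le_max_right _ _).trans (le_max_left _ _)
    have h3 : 162 * |C| + 1 ≤ r := le_max_right _ _
    obtain ⟨z, hz, hzr, hz2⟩ := growth (r := r) (by linarith)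
    refine ⟨r, by linarith, z, hz, hzr, lt_of_lt_of_le ?_ hz2⟩
    have h4 := Real.quadratic_le_exp_of_nonneg (x := r / 9) (by linarith)
    have h5 := le_abs_self C
    nlinarith

end Pool.Agent.Results.MP_dd07a5_an.ExponentialGrowth
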