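import Pool.Agent.R745.MG.Top

/-!
# A minimal graph of exponential growth over a domain containing a half plane

We answer Q1 of MP_dd07a5_an negatively.
-/

set_option autoImplicit false
open Set Function Filter
open scoped ContDiff Topology

namespace Pool.Agent.Results.MP_dd07a5_an.FastMinimalGraph

/-- `∂u/∂x` at `z` (the derivative in the direction `1`) -/
noncomputable def ux (u : ℂ → ℝ) (z : ℂ) : ℝ := fderiv ℝ u z 1

/-- `∂u/∂y` at `z` (the derivative in the direction `i`) -/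
noncomputable def uy (u : ℂ → ℝ) (z : ℂ) : ℝ := fderiv ℝ u z Complex.I

/-- `√(1 + |∇u|²)` -/
noncomputable def W (u : ℂ → ℝ) (z : ℂ) : ℝ := √(1 + ux u z ^ 2 + uy u z ^ 2)

/-- `div (∇u / √(1 + |∇u|²))` at `z` -/
noncomputable def msOp (u : ℂ → ℝ) (z : ℂ) : ℝ :=
  ux (fun x => ux u x / W u x) z + uy (fun x => uy u x / W u x) z

/-- `u` is a solution of problem `(∗)` on `D`: `u ∈ C²(D) ∩ C(closure D)`, the minimal surface equation
and `u > 0` hold in `D`, and `u = 0` on the boundary of `D`. -/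
structure IsSolution (D : Set ℂ) (u : ℂ → ℝ) : Prop where
  contDiffOn : ContDiffOn ℝ 2 u D
  continuousOn : ContinuousOn u (closure D)
  equation : ∀ z ∈ D, msOp u z = 0
  pos : ∀ z ∈ D, 0 < u z
  zero : ∀ z ∈ frontier D, u z = 0

/-- the values of `u` on the part of the circle of radius `r` in `D` -/
def valuesOn (D : Set ℂ) (u : ℂ → ℝ) (r : ℝ) : Set ℝ := {t | ∃ z ∈ D, ‖z‖ = r ∧ t = u z}

/-- `M(r)` -/
noncomputable def M (D : Set ℂ) (u : ℂ → ℝ) (r : ℝ) : ℝ := sSup (valuesOn D u r)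

/-- `D` contains the half-plane `{Re (e^{iθ} z) > a}` for some `θ`, `a`. -/
def ContainsHalfPlane (D : Set ℂ) : Prop :=
  ∃ θ a : ℝ, {z : ℂ | a < (Complex.exp (θ * Complex.I) * z).re} ⊆ D

/-- There are an unbounded domain `D` containing a half-plane and a solution `u` of `(∗)` on `D` such
that there are no `C, r₀ > 0` with `M(r) ≤ C r` for all `r > r₀`. -/
theorem result : ∃ (D : Set ℂ) (u : ℂ → ℝ), IsOpen D ∧ IsConnected D ∧ ¬ Bornology.IsBounded D ∧
    ContainsHalfPlane D ∧ IsSolution D u ∧ (∀ r, BddAbove (valuesOn D u r)) ∧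
    ¬ ∃ C > 0, ∃ r₀ > 0, ∀ r > r₀, M D u r ≤ C * r := by
  have hb : ∀ r, BddAbove (valuesOn R745.MG.D R745.MG.u r) := by
    intro r
    obtain ⟨B, hB⟩ := ((isCompact_sphere (0 : ℂ) r).image R745.MG.continuous_u).bddAbove
    refine ⟨B, ?_⟩
    rintro t ⟨z, -, hz, rfl⟩
    exact hB ⟨z, by simpa using hz, rfl⟩
  refine ⟨R745.MG.D, R745.MG.u, R745.MG.isOpen_D, R745.MG.isConnected_D, ?_, ?_, ?_, hb, ?_⟩
  · intro hbd
    obtain ⟨B, hB⟩ := hbd.exists_norm_le
    obtain ⟨z, hz, h1, -⟩ := R745.MG.growth 0 B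
    exact absurd (hB z hz) (not_le.2 h1)
  · refine ⟨Real.pi / 2, 0, fun z hz => R745.MG.half_plane ?_⟩
    have h1 : Complex.exp (((Real.pi / 2 : ℝ) : ℂ) * Complex.I) = Complex.I := by
      push_cast
      exact Complex.exp_pi_div_two_mul_I
    have h2 : (0 : ℝ) < (Complex.exp (((Real.pi / 2 : ℝ) : ℂ) * Complex.I) * z).re := hz
    rw [h1] at h2
    simp at h2
    exact h2
  · refine ⟨fun z hz => ?_, R745.MG.continuous_u.continuousOn, fun z hz => R745.MG.mse hz,
      fun z hz => R745.MG.u_pos hz, fun z hz => ?_⟩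
    · exact ((R745.MG.contDiffAt_u hz).of_le ENat.LEInfty.out).contDiffWithinAt
    · apply R745.MG.u_of_notMem
      rw [frontier, R745.MG.isOpen_D.interior_eq] at hz
      exact hz.2
  · rintro ⟨C, -, r₀, -, h⟩
    obtain ⟨z, hz, h1, h2⟩ := R745.MG.growth C r₀
    have h3 : R745.MG.u z ≤ M R745.MG.D R745.MG.u ‖z‖ :=
      le_csSup (hb ‖z‖) ⟨z, hz, rfl, rfl⟩
    linarith [h ‖z‖ h1]

end Pool.Agent.Results.MP_dd07a5_an.FastMinimalGraph
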